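import Pool.Agent.H20.TM.Rec

set_option linter.style.longLine false

/-! TM4 (MP_b6022c_nt): Dirichlet approximation in any dimension and the recurrence for three
quadratic and three linear conditions. -/

namespace Pool.Agent.H48.TM4

open Finset Pool.Agent.H9.TC Pool.Agent.H20.TM

/-- Dirichlet approximation with different precisions -/
theorem dirR (n : ℕ) (x : Fin n → ℝ) (l : Fin n → ℕ) :
    ∃ t : ℕ, 1 ≤ t ∧ t ≤ 2 ^ (∑ i, l i) ∧ ∀ i, nn (t * x i) ≤ (1 / 2) ^ l i := by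
  let f : ℕ → Fin n → ℤ := fun j i => ⌊Int.fract ((j : ℝ) * x i) * 2 ^ l i⌋
  have hmaps : ∀ j ∈ range (2 ^ (∑ i, l i) + 1),
      f j ∈ Fintype.piFinset (fun i => Finset.Ico (0 : ℤ) (2 ^ l i)) := by
    intro j _
    rw [Fintype.mem_piFinset]
    intro i
    rw [Finset.mem_Ico]
    have h1 := Int.fract_nonneg ((j : ℝ) * x i)
    have h2 := Int.fract_lt_one ((j : ℝ) * x i)
    have h3 : (0 : ℝ) < 2 ^ l i := by positivity
    constructor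
    · exact Int.floor_nonneg.2 (by positivity)
    · rw [Int.floor_lt]
      push_cast
      nlinarith
  have hcard : (Fintype.piFinset (fun i => Finset.Ico (0 : ℤ) (2 ^ l i))).card <
      (range (2 ^ (∑ i, l i) + 1)).card := by
    rw [Fintype.card_piFinset, card_range]
    have e : ∀ i, (Finset.Ico (0 : ℤ) (2 ^ l i)).card = 2 ^ l i := by
      intro i
      rw [Int.card_Ico, sub_zero]
      exact_mod_cast Int.toNat_natCast (2 ^ l i)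
    simp only [e]
    rw [prod_pow_eq_pow_sum]
    omega
  obtain ⟨i, hi, j, hj, hij, hf⟩ := Finset.exists_ne_map_eq_of_card_lt_of_maps_to hcard hmaps
  have main : ∀ i j : ℕ, i < j → j ≤ 2 ^ (∑ i, l i) → f i = f j →
      ∃ t : ℕ, 1 ≤ t ∧ t ≤ 2 ^ (∑ i, l i) ∧ ∀ i, nn (t * x i) ≤ (1 / 2) ^ l i := by
    intro i j hlt hj hf
    refine ⟨j - i, by omega, by omega, fun k => ?_⟩
    have h1 := congrFun hf k
    have h2 := Int.abs_sub_lt_one_of_floor_eq_floor h1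
    rw [← sub_mul, abs_mul, abs_of_pos (show (0 : ℝ) < 2 ^ l k by positivity)] at h2
    rw [Nat.cast_sub hlt.le]
    have e : ((j : ℝ) - i) * x k = -(Int.fract ((i : ℝ) * x k) - Int.fract ((j : ℝ) * x k)) +
        ((⌊(j : ℝ) * x k⌋ - ⌊(i : ℝ) * x k⌋ : ℤ) : ℝ) := by
      push_cast
      have h3 := Int.floor_add_fract ((i : ℝ) * x k)
      have h4 := Int.floor_add_fract ((j : ℝ) * x k)
      linarith
    rw [e, nn_add_int]
    refine (nn_le_abs _).trans ?_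
    rw [abs_neg, one_div, inv_pow, ← one_div, le_div_iff₀ (by positivity)]
    exact h2.le
  rw [mem_range] at hi hj
  rcases lt_or_gt_of_ne hij with h | h
  · exact main i j h (by omega) hf
  · exact main j i h (by omega) hf.symm

/-- Dirichlet approximation, integer form -/
theorem dir (n : ℕ) (x : Fin n → ℤ) (v : ℕ) (l : Fin n → ℕ) :
    ∃ t : ℕ, 1 ≤ t ∧ t ≤ 2 ^ (∑ i, l i) ∧
      ∀ i, ∃ z : ℤ, |(t : ℤ) * x i - z * 2 ^ v| * 2 ^ l i ≤ 2 ^ v := by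
  obtain ⟨t, h1, h2, h3⟩ := dirR n (fun i => (x i : ℝ) / 2 ^ v) l
  refine ⟨t, h1, h2, fun i => ⟨round ((t : ℝ) * ((x i : ℝ) / 2 ^ v)), ?_⟩⟩
  have h4 := h3 i
  unfold nn at h4
  set z := round ((t : ℝ) * ((x i : ℝ) / 2 ^ v))
  have h5 : |(t : ℝ) * x i - z * 2 ^ v| * 2 ^ l i ≤ 2 ^ v := by
    have e : (t : ℝ) * x i - z * 2 ^ v = ((t : ℝ) * ((x i : ℝ) / 2 ^ v) - z) * 2 ^ v := by
      field_simp
    rw [e, abs_mul, abs_of_pos (show (0 : ℝ) < 2 ^ v by positivity)]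
    calc |(t : ℝ) * ((x i : ℝ) / 2 ^ v) - z| * 2 ^ v * 2 ^ l i
        ≤ (1 / 2) ^ l i * 2 ^ v * 2 ^ l i := by gcongr
      _ = 2 ^ v * ((1 / 2) ^ l i * 2 ^ l i) := by ring
      _ = 2 ^ v := by rw [← mul_pow]; norm_num
  exact_mod_cast h5

theorem half_pow_mul {a b : ℕ} : ((1 : ℝ) / 2) ^ (a + b) * 2 ^ b = (1 / 2) ^ a := by
  rw [pow_add, mul_assoc, ← mul_pow]
  norm_num

theorem nn_sq_mul {D E : ℕ} {b : ℝ} {K m : ℕ} (hE : E ≤ 2 ^ m)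
    (h : nn ((D : ℝ) ^ 2 * b) ≤ (1 / 2) ^ (K + 2 * m)) :
    nn (((D * E : ℕ) : ℝ) ^ 2 * b) ≤ (1 / 2) ^ K := by
  have e : ((D * E : ℕ) : ℝ) ^ 2 * b = ((E ^ 2 : ℕ) : ℝ) * ((D : ℝ) ^ 2 * b) := by
    push_cast
    ring
  rw [e]
  refine (nn_nat_mul _ _).trans ?_
  have hE' : ((E ^ 2 : ℕ) : ℝ) ≤ 2 ^ (2 * m) := by
    have : E ^ 2 ≤ 2 ^ (2 * m) := by
      rw [mul_comm, pow_mul]
      exact Nat.pow_le_pow_left hE 2
    exact_mod_cast this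
  calc ((E ^ 2 : ℕ) : ℝ) * nn ((D : ℝ) ^ 2 * b) ≤ 2 ^ (2 * m) * (1 / 2) ^ (K + 2 * m) := by
        gcongr
        exact nn_nonneg _
    _ = (1 / 2) ^ K := by rw [mul_comm, half_pow_mul]

/-- the recurrence: three quadratic and three linear conditions -/
theorem rec3 (K : ℕ) (b1 b2 b3 : ℝ) : ∃ D : ℕ, 1 ≤ D ∧ D ≤ 2 ^ (42584 * K + 6636) ∧
    (nn ((D : ℝ) ^ 2 * b1) ≤ (1 / 2) ^ K ∧ nn ((D : ℝ) ^ 2 * b2) ≤ (1 / 2) ^ K ∧
      nn ((D : ℝ) ^ 2 * b3) ≤ (1 / 2) ^ K) ∧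
    (nn (2 * D * b1) ≤ (1 / 2) ^ K ∧ nn (2 * D * b2) ≤ (1 / 2) ^ K ∧
      nn (2 * D * b3) ≤ (1 / 2) ^ K) := by
  obtain ⟨D1, p1, q1, r1⟩ := quad_rec (K + 2 * (1851 * K + 288)) b1
  obtain ⟨D2, p2, q2, r2⟩ := quad_rec (K + 2 * (80 * K + 12)) ((D1 : ℝ) ^ 2 * b2)
  obtain ⟨D3, p3, q3, r3⟩ := quad_rec (K + 2 * (3 * K)) (((D1 * D2 : ℕ) : ℝ) ^ 2 * b3)
  obtain ⟨D4, p4, q4, r4⟩ := dirR 3 ![2 * ((D1 * D2 * D3 : ℕ) : ℝ) * b1,
    2 * ((D1 * D2 * D3 : ℕ) : ℝ) * b2, 2 * ((D1 * D2 * D3 : ℕ) : ℝ) * b3] (fun _ => K)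
  have q4' : D4 ≤ 2 ^ (3 * K) := by simpa using q4
  have q34 : D3 * D4 ≤ 2 ^ (80 * K + 12) := by
    calc D3 * D4 ≤ 2 ^ (11 * (K + 2 * (3 * K)) + 12) * 2 ^ (3 * K) := Nat.mul_le_mul q3 q4'
      _ = 2 ^ (80 * K + 12) := by
          rw [← pow_add, show 11 * (K + 2 * (3 * K)) + 12 + 3 * K = 80 * K + 12 by omega]
  have q234 : D2 * (D3 * D4) ≤ 2 ^ (1851 * K + 288) := by
    calc D2 * (D3 * D4) ≤ 2 ^ (11 * (K + 2 * (80 * K + 12)) + 12) * 2 ^ (80 * K + 12) :=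
          Nat.mul_le_mul q2 q34
      _ = 2 ^ (1851 * K + 288) := by
          rw [← pow_add, show 11 * (K + 2 * (80 * K + 12)) + 12 + (80 * K + 12) =
            1851 * K + 288 by omega]
  refine ⟨D1 * D2 * D3 * D4, ?_, ?_, ⟨?_, ?_, ?_⟩, ?_⟩
  · exact Nat.mul_pos (Nat.mul_pos (Nat.mul_pos p1 p2) p3) p4
  · calc D1 * D2 * D3 * D4 = D1 * (D2 * (D3 * D4)) := by ring
      _ ≤ 2 ^ (11 * (K + 2 * (1851 * K + 288)) + 12) * 2 ^ (1851 * K + 288) :=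
          Nat.mul_le_mul q1 q234
      _ = 2 ^ (42584 * K + 6636) := by
          rw [← pow_add, show 11 * (K + 2 * (1851 * K + 288)) + 12 + (1851 * K + 288) =
            42584 * K + 6636 by omega]
  · have := nn_sq_mul q234 r1
    rwa [show D1 * (D2 * (D3 * D4)) = D1 * D2 * D3 * D4 by ring] at this
  · have e : (D2 : ℝ) ^ 2 * ((D1 : ℝ) ^ 2 * b2) = ((D1 * D2 : ℕ) : ℝ) ^ 2 * b2 := by
      push_cast
      ring
    rw [e] at r2
    have := nn_sq_mul q34 r2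
    rwa [show D1 * D2 * (D3 * D4) = D1 * D2 * D3 * D4 by ring] at this
  · have e : (D3 : ℝ) ^ 2 * (((D1 * D2 : ℕ) : ℝ) ^ 2 * b3) = ((D1 * D2 * D3 : ℕ) : ℝ) ^ 2 * b3 := by
      push_cast
      ring
    rw [e] at r3
    exact nn_sq_mul q4' r3
  · have e : ∀ b : ℝ, 2 * ((D1 * D2 * D3 * D4 : ℕ) : ℝ) * b =
        (D4 : ℝ) * (2 * ((D1 * D2 * D3 : ℕ) : ℝ) * b) := by
      intro b
      push_cast
      ring
    have s0 := r4 0
    have s1 := r4 1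
    have s2 := r4 2
    simp only [Matrix.cons_val_zero, Matrix.cons_val_one, Matrix.cons_val] at s0 s1 s2
    rw [e, e, e]
    exact ⟨s0, s1, s2⟩

end Pool.Agent.H48.TM4
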