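import Pool.Agent.H20.TM.Rec

set_option linter.style.longLine false

/-! TM4 (MP_b6022c_nt): the shift `D t` for a window `[v - w, v)` in the gap, and the shift `h` for
a top window: the values of a quartic polynomial change by a small amount modulo `2 ^ v`. -/

namespace Pool.Agent.H48.TM4

open Finset Pool.Agent.H9.TC Pool.Agent.H20.TM

theorem nn_int_mul (k : ℤ) (x : ℝ) : nn ((k : ℝ) * x) ≤ |(k : ℝ)| * nn x := by
  rcases Int.eq_nat_or_neg k with ⟨n, rfl | rfl⟩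
  · have := nn_nat_mul n x
    rw [Int.cast_natCast, Nat.abs_cast]
    exact this
  · have := nn_nat_mul n x
    rw [Int.cast_neg, Int.cast_natCast, neg_mul, nn_neg, abs_neg, Nat.abs_cast]
    exact this

/-- an integer multiple of a number close to an integer -/
theorem nn_mul_le {k : ℤ} {x K δ : ℝ} (hk : |(k : ℝ)| ≤ K) (hx : nn x ≤ δ) :
    nn ((k : ℝ) * x) ≤ K * δ :=
  (nn_int_mul k x).trans (mul_le_mul hk hx (nn_nonneg x) ((abs_nonneg _).trans hk))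

/-- from `nn` to `small` -/
theorem small_of_nn {v : ℕ} {x D : ℤ} (h : nn ((x : ℝ) / 2 ^ v) ≤ (D : ℝ) / 2 ^ v) : small v D x := by
  have hp : (0 : ℝ) < 2 ^ v := by positivity
  refine ⟨x - round ((x : ℝ) / 2 ^ v) * 2 ^ v, ?_, ⟨round ((x : ℝ) / 2 ^ v), by ring⟩⟩
  unfold nn at h
  set z := round ((x : ℝ) / 2 ^ v)
  have h2 : |(x : ℝ) - z * 2 ^ v| ≤ D := by
    have e : (x : ℝ) - z * 2 ^ v = ((x : ℝ) / 2 ^ v - z) * 2 ^ v := by
      field_simp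
    rw [e, abs_mul, abs_of_pos hp]
    calc |(x : ℝ) / 2 ^ v - z| * 2 ^ v ≤ (D : ℝ) / 2 ^ v * 2 ^ v := by gcongr
      _ = D := by field_simp
  exact_mod_cast h2

/-- the identity behind the gap windows: quartic part -/
theorem gap_id4 (c B A D t j s x m q : ℝ) :
    c * ((B + s + D * x + A * m + j * (D * t)) ^ 4 - (B + s + D * x + A * m) ^ 4) * q =
      j * (t * (4 * c * D * B ^ 3 * q)) + (j * m) * (t * (12 * c * D * A * B ^ 2 * q)) +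
      (j * m ^ 2) * (t * (12 * c * D * A ^ 2 * B * q)) + (j * m ^ 3) * (t * (4 * c * D * A ^ 3 * q)) +
      ((j * t * s) * (2 * D * (6 * c * B ^ 2 * q)) + (j * t * s * m) * (2 * D * (12 * c * A * B * q)) +
        (j * t * s * m ^ 2) * (2 * D * (6 * c * A ^ 2 * q))) +
      ((2 * j * t * x + j ^ 2 * t ^ 2) * (D ^ 2 * (6 * c * B ^ 2 * q)) +
        (2 * j * t * x * m + j ^ 2 * t ^ 2 * m) * (D ^ 2 * (12 * c * A * B * q)) +
        (2 * j * t * x * m ^ 2 + j ^ 2 * t ^ 2 * m ^ 2) * (D ^ 2 * (6 * c * A ^ 2 * q))) +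
      c * (12 * (j * D * t) * B * (s + D * x) ^ 2 + 4 * (j * D * t) * (s + D * x) ^ 3 +
        12 * (j * D * t) * (s + D * x) ^ 2 * (A * m) + 12 * (j * D * t) ^ 2 * B * (s + D * x) +
        6 * (j * D * t) ^ 2 * (s + D * x) ^ 2 + 12 * (j * D * t) ^ 2 * (s + D * x) * (A * m) +
        4 * (B + s + D * x + A * m) * (j * D * t) ^ 3 + (j * D * t) ^ 4) * q := by
  ring

/-- cubic part -/
theorem gap_id3 (d B A D t j s x m q : ℝ) :
    d * ((B + s + D * x + A * m + j * (D * t)) ^ 3 - (B + s + D * x + A * m) ^ 3) * q =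
      (d * j) * (t * (3 * D * B ^ 2 * q)) + (d * j * m) * (t * (6 * D * A * B * q)) +
      (d * j * m ^ 2) * (t * (3 * D * A ^ 2 * q)) +
      d * (6 * (j * D * t) * B * (s + D * x) + 3 * (j * D * t) * (s + D * x) ^ 2 +
        6 * (j * D * t) * (s + D * x) * (A * m) + 3 * (B + s + D * x + A * m) * (j * D * t) ^ 2 +
        (j * D * t) ^ 3) * q := by
  ring

theorem two_half {a b k : ℕ} (h : a + k ≤ b) : (2 : ℝ) ^ a * (1 / 2) ^ b ≤ (1 / 2) ^ k := by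
  have h1 : ((1 : ℝ) / 2) ^ b ≤ (1 / 2) ^ (k + a) :=
    pow_le_pow_of_le_one (by norm_num) (by norm_num) (by omega)
  calc (2 : ℝ) ^ a * (1 / 2) ^ b ≤ 2 ^ a * (1 / 2) ^ (k + a) := by gcongr
    _ = (1 / 2) ^ k * (2 ^ a * (1 / 2) ^ a) := by ring
    _ = (1 / 2) ^ k := by rw [← mul_pow]; norm_num

theorem mulb {a b α β : ℝ} (ha : |a| ≤ α) (hb : |b| ≤ β) : |a * b| ≤ α * β := by
  rw [abs_mul]
  exact mul_le_mul ha hb (abs_nonneg _) ((abs_nonneg _).trans ha)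

theorem powb {a α : ℝ} (ha : |a| ≤ α) (n : ℕ) : |a ^ n| ≤ α ^ n := by
  rw [abs_pow]
  exact pow_le_pow_left₀ (abs_nonneg _) ha n

theorem addb {a b α β : ℝ} (ha : |a| ≤ α) (hb : |b| ≤ β) : |a + b| ≤ α + β :=
  (abs_add_le a b).trans (add_le_add ha hb)

theorem numb {a : ℝ} (ha : 0 ≤ a) : |a| ≤ a := (abs_of_nonneg ha).le

/-- the small real part of the quartic term -/
theorem real4_le {B y M T Z N : ℝ} (hB : |B| ≤ N) (hy : |y| ≤ Z) (hM : |M| ≤ N) (hT : |T| ≤ Z)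
    (hn : |B + y + M| ≤ N) (hZN : Z ≤ N) :
    |12 * T * B * y ^ 2 + 4 * T * y ^ 3 + 12 * T * y ^ 2 * M + 12 * T ^ 2 * B * y +
      6 * T ^ 2 * y ^ 2 + 12 * T ^ 2 * y * M + 4 * (B + y + M) * T ^ 3 + T ^ 4| ≤ 63 * (Z ^ 3 * N) := by
  have hZ : 0 ≤ Z := (abs_nonneg _).trans hy
  have h := addb (addb (addb (addb (addb (addb (addb
    (mulb (mulb (mulb (numb (show (0 : ℝ) ≤ 12 by norm_num)) hT) hB) (powb hy 2))
    (mulb (mulb (numb (show (0 : ℝ) ≤ 4 by norm_num)) hT) (powb hy 3)))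
    (mulb (mulb (mulb (numb (show (0 : ℝ) ≤ 12 by norm_num)) hT) (powb hy 2)) hM))
    (mulb (mulb (mulb (numb (show (0 : ℝ) ≤ 12 by norm_num)) (powb hT 2)) hB) hy))
    (mulb (mulb (numb (show (0 : ℝ) ≤ 6 by norm_num)) (powb hT 2)) (powb hy 2)))
    (mulb (mulb (mulb (numb (show (0 : ℝ) ≤ 12 by norm_num)) (powb hT 2)) hy) hM))
    (mulb (mulb (numb (show (0 : ℝ) ≤ 4 by norm_num)) hn) (powb hT 3)))
    (powb hT 4)
  refine h.trans ?_
  have h4 : Z ^ 4 ≤ Z ^ 3 * N := by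
    rw [pow_succ]
    exact mul_le_mul_of_nonneg_left hZN (by positivity)
  nlinarith

/-- the small real part of the cubic term -/
theorem real3_le {B y M T Z N : ℝ} (hB : |B| ≤ N) (hy : |y| ≤ Z) (hM : |M| ≤ N) (hT : |T| ≤ Z)
    (hn : |B + y + M| ≤ N) (hZN : Z ≤ N) (hZ1 : 1 ≤ Z) :
    |6 * T * B * y + 3 * T * y ^ 2 + 6 * T * y * M + 3 * (B + y + M) * T ^ 2 + T ^ 3| ≤
      19 * (Z ^ 3 * N) := by
  have hZ : 0 ≤ Z := (abs_nonneg _).trans hy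
  have hN : 0 ≤ N := (abs_nonneg _).trans hB
  have h := addb (addb (addb (addb
    (mulb (mulb (mulb (numb (show (0 : ℝ) ≤ 6 by norm_num)) hT) hB) hy)
    (mulb (mulb (numb (show (0 : ℝ) ≤ 3 by norm_num)) hT) (powb hy 2)))
    (mulb (mulb (mulb (numb (show (0 : ℝ) ≤ 6 by norm_num)) hT) hy) hM))
    (mulb (mulb (numb (show (0 : ℝ) ≤ 3 by norm_num)) hn) (powb hT 2)))
    (powb hT 3)
  refine h.trans ?_
  have h3 : Z ^ 2 * N ≤ Z ^ 3 * N := by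
    have : Z ^ 2 ≤ Z ^ 3 := pow_le_pow_right₀ hZ1 (by norm_num)
    exact mul_le_mul_of_nonneg_right this hN
  have h4 : Z ^ 3 ≤ Z ^ 2 * N := by
    rw [pow_succ]
    exact mul_le_mul_of_nonneg_left hZN (by positivity)
  nlinarith

theorem real2_le {n T Z N : ℝ} (hT : |T| ≤ Z) (hn : |n| ≤ N) (hZN : Z ≤ N) (hZ1 : 1 ≤ Z) :
    |2 * n * T + T ^ 2| ≤ 3 * (Z ^ 3 * N) := by
  have hZ : 0 ≤ Z := (abs_nonneg _).trans hT
  have hN : 0 ≤ N := (abs_nonneg _).trans hn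
  have h := addb (mulb (mulb (numb (show (0 : ℝ) ≤ 2 by norm_num)) hn) hT) (powb hT 2)
  refine h.trans ?_
  have h3 : Z * N ≤ Z ^ 3 * N := by
    have : Z ^ 1 ≤ Z ^ 3 := pow_le_pow_right₀ hZ1 (by norm_num)
    rw [pow_one] at this
    exact mul_le_mul_of_nonneg_right this hN
  nlinarith

theorem real1_le {T Z N : ℝ} (hT : |T| ≤ Z) (hZN : Z ≤ N) (hZ1 : 1 ≤ Z) : |T| ≤ Z ^ 3 * N := by
  refine hT.trans (hZN.trans ?_)
  have : (1 : ℝ) ≤ Z ^ 3 := one_le_pow₀ hZ1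
  nlinarith

/-- the small real part, total -/
theorem real_le {c d e f B y M T Z N C : ℝ} (hB : |B| ≤ N) (hy : |y| ≤ Z) (hM : |M| ≤ N)
    (hT : |T| ≤ Z) (hn : |B + y + M| ≤ N) (hZN : Z ≤ N) (hZ1 : 1 ≤ Z)
    (hC : 63 * |c| + 19 * |d| + 3 * |e| + |f| ≤ C) :
    |c * (12 * T * B * y ^ 2 + 4 * T * y ^ 3 + 12 * T * y ^ 2 * M + 12 * T ^ 2 * B * y +
      6 * T ^ 2 * y ^ 2 + 12 * T ^ 2 * y * M + 4 * (B + y + M) * T ^ 3 + T ^ 4) +
      d * (6 * T * B * y + 3 * T * y ^ 2 + 6 * T * y * M + 3 * (B + y + M) * T ^ 2 + T ^ 3) +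
      e * (2 * (B + y + M) * T + T ^ 2) + f * T| ≤ C * (Z ^ 3 * N) := by
  have hN : 0 ≤ N := (abs_nonneg _).trans hB
  have h := addb (addb (addb (mulb (le_refl |c|) (real4_le hB hy hM hT hn hZN))
    (mulb (le_refl |d|) (real3_le hB hy hM hT hn hZN hZ1)))
    (mulb (le_refl |e|) (real2_le hT hn hZN hZ1)))
    (mulb (le_refl |f|) (real1_le hT hZN hZ1))
  refine h.trans ?_
  have h3 : 0 ≤ Z ^ 3 * N := by positivity
  calc _ = (63 * |c| + 19 * |d| + 3 * |e| + |f|) * (Z ^ 3 * N) := by ring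
    _ ≤ _ := mul_le_mul_of_nonneg_right hC h3

theorem nn_add3 {x1 x2 x3 a1 a2 a3 : ℝ} (h1 : nn x1 ≤ a1) (h2 : nn x2 ≤ a2) (h3 : nn x3 ≤ a3) :
    nn (x1 + x2 + x3) ≤ a1 + a2 + a3 :=
  (nn_add_le _ _).trans (add_le_add ((nn_add_le _ _).trans (add_le_add h1 h2)) h3)

theorem nn_add2 {x1 x2 a1 a2 : ℝ} (h1 : nn x1 ≤ a1) (h2 : nn x2 ≤ a2) : nn (x1 + x2) ≤ a1 + a2 :=
  (nn_add_le _ _).trans (add_le_add h1 h2)

theorem pow_sub_div {v p : ℕ} (h : p ≤ v) : ((2 : ℝ) ^ (v - p)) / 2 ^ v = (1 / 2) ^ p := by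
  obtain ⟨u, rfl⟩ := Nat.exists_eq_add_of_le h
  rw [Nat.add_sub_cancel_left, pow_add, one_div_pow]
  field_simp

/-- one monomial: integer multiplier at most `2 ^ p`, number with `nn ≤ (1/2)^r` -/
theorem mono_le {k : ℤ} {x : ℝ} {p r u : ℕ} (hk : |(k : ℝ)| ≤ 2 ^ p) (hx : nn x ≤ (1 / 2) ^ r)
    (h : p + u ≤ r) : nn ((k : ℝ) * x) ≤ (1 / 2) ^ u :=
  (nn_mul_le hk hx).trans (two_half h)

/-- GAP WINDOWS: the shift `D t` -/
theorem gap_small {c d e f h : ℤ} {C0 g g0 w a E v K : ℕ}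
    (hC : 63 * |c| + 19 * |d| + 3 * |e| + |f| ≤ 2 ^ C0) (hw : C0 + 3 * g0 + g + 20 ≤ w)
    (hE : 3 * E + 60 * w ≤ a) (hEw : 541 * w ≤ E) (hv : 2 * a + w ≤ v) (hK : 562 * w ≤ K)
    {B D t s x m : ℕ} {j : ℤ} (hB : B ≤ 2 ^ a) (hD : D ≤ 2 ^ E) (ht : t ≤ 2 ^ (17 * w))
    (hs : s ≤ 2 ^ (540 * w + 1)) (hx : x ≤ 2 ^ (18 * w + 1)) (hm : m ≤ 2 ^ w) (hj : |j| ≤ 2 ^ g0)
    (l1 : nn (2 * D * (6 * c * B ^ 2 * (1 / 2 ^ v))) ≤ (1 / 2) ^ K)
    (l2 : nn (2 * D * (12 * c * 2 ^ a * B * (1 / 2 ^ v))) ≤ (1 / 2) ^ K)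
    (l3 : nn (2 * D * (6 * c * (2 ^ a) ^ 2 * (1 / 2 ^ v))) ≤ (1 / 2) ^ K)
    (q1 : nn ((D : ℝ) ^ 2 * (6 * c * B ^ 2 * (1 / 2 ^ v))) ≤ (1 / 2) ^ K)
    (q2 : nn ((D : ℝ) ^ 2 * (12 * c * 2 ^ a * B * (1 / 2 ^ v))) ≤ (1 / 2) ^ K)
    (q3 : nn ((D : ℝ) ^ 2 * (6 * c * (2 ^ a) ^ 2 * (1 / 2 ^ v))) ≤ (1 / 2) ^ K)
    (t1 : nn (t * (4 * c * D * B ^ 3 * (1 / 2 ^ v))) ≤ (1 / 2) ^ (w + g + g0 + C0 + 4))
    (t2 : nn (t * (12 * c * D * 2 ^ a * B ^ 2 * (1 / 2 ^ v))) ≤ (1 / 2) ^ (w + g + g0 + C0 + 4 + w))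
    (t3 : nn (t * (12 * c * D * (2 ^ a) ^ 2 * B * (1 / 2 ^ v))) ≤
      (1 / 2) ^ (w + g + g0 + C0 + 4 + 2 * w))
    (t4 : nn (t * (4 * c * D * (2 ^ a) ^ 3 * (1 / 2 ^ v))) ≤ (1 / 2) ^ (w + g + g0 + C0 + 4 + 3 * w))
    (t5 : nn (t * (3 * D * B ^ 2 * (1 / 2 ^ v))) ≤ (1 / 2) ^ (w + g + g0 + C0 + 4))
    (t6 : nn (t * (6 * D * 2 ^ a * B * (1 / 2 ^ v))) ≤ (1 / 2) ^ (w + g + g0 + C0 + 4 + w))
    (t7 : nn (t * (3 * D * (2 ^ a) ^ 2 * (1 / 2 ^ v))) ≤ (1 / 2) ^ (w + g + g0 + C0 + 4 + 2 * w))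
    (P : ℤ → ℤ) (hP : ∀ n, P n = c * n ^ 4 + d * n ^ 3 + e * n ^ 2 + f * n + h) :
    small v (2 ^ (v - w - g)) (P (B + s + D * x + 2 ^ a * m + j * (D * t)) -
      P (B + s + D * x + 2 ^ a * m)) := by
  have hcR : 63 * |(c : ℝ)| + 19 * |(d : ℝ)| + 3 * |(e : ℝ)| + |(f : ℝ)| ≤ 2 ^ C0 := by exact_mod_cast hC
  have hdR : |(d : ℝ)| ≤ 2 ^ C0 := by
    have h1 := abs_nonneg (c : ℝ)
    have h2 := abs_nonneg (d : ℝ)
    have h3 := abs_nonneg (e : ℝ)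
    have h4 := abs_nonneg (f : ℝ)
    linarith
  have hj' : |(j : ℝ)| ≤ 2 ^ g0 := by exact_mod_cast hj
  have hm' : |(m : ℝ)| ≤ 2 ^ w := by rw [Nat.abs_cast]; exact_mod_cast hm
  have ht' : |(t : ℝ)| ≤ 2 ^ (17 * w) := by rw [Nat.abs_cast]; exact_mod_cast ht
  have hs' : |(s : ℝ)| ≤ 2 ^ (540 * w + 1) := by rw [Nat.abs_cast]; exact_mod_cast hs
  have hx' : |(x : ℝ)| ≤ 2 ^ (18 * w + 1) := by rw [Nat.abs_cast]; exact_mod_cast hx
  have hB' : |(B : ℝ)| ≤ 2 ^ a := by rw [Nat.abs_cast]; exact_mod_cast hB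
  have hD' : |(D : ℝ)| ≤ 2 ^ E := by rw [Nat.abs_cast]; exact_mod_cast hD
  set q : ℝ := 1 / 2 ^ v with hq
  set A : ℝ := 2 ^ a with hA
  -- the monomials
  have p1 : nn ((j : ℝ) * (t * (4 * c * D * B ^ 3 * q))) ≤ (1 / 2) ^ (w + g + 4) :=
    mono_le hj' t1 (by omega)
  have p2 : nn (((j : ℝ) * m) * (t * (12 * c * D * A * B ^ 2 * q))) ≤ (1 / 2) ^ (w + g + 4) := by
    have := mono_le (k := j * m) (p := g0 + w) (u := w + g + 4) (by
      push_cast; rw [pow_add]; exact mulb hj' hm') t2 (by omega)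
    push_cast at this
    exact this
  have p3 : nn (((j : ℝ) * m ^ 2) * (t * (12 * c * D * A ^ 2 * B * q))) ≤ (1 / 2) ^ (w + g + 4) := by
    have := mono_le (k := j * m ^ 2) (p := g0 + 2 * w) (u := w + g + 4) (by
      push_cast; rw [pow_add, mul_comm 2 w, pow_mul]; exact mulb hj' (powb hm' 2)) t3 (by omega)
    push_cast at this
    exact this
  have p4 : nn (((j : ℝ) * m ^ 3) * (t * (4 * c * D * A ^ 3 * q))) ≤ (1 / 2) ^ (w + g + 4) := by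
    have := mono_le (k := j * m ^ 3) (p := g0 + 3 * w) (u := w + g + 4) (by
      push_cast; rw [pow_add, mul_comm 3 w, pow_mul]; exact mulb hj' (powb hm' 3)) t4 (by omega)
    push_cast at this
    exact this
  have p5 : nn (((d : ℝ) * j) * (t * (3 * D * B ^ 2 * q))) ≤ (1 / 2) ^ (w + g + 4) := by
    have := mono_le (k := d * j) (p := C0 + g0) (u := w + g + 4) (by
      push_cast; rw [pow_add]; exact mulb hdR hj') t5 (by omega)
    push_cast at this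
    exact this
  have p6 : nn (((d : ℝ) * j * m) * (t * (6 * D * A * B * q))) ≤ (1 / 2) ^ (w + g + 4) := by
    have := mono_le (k := d * j * m) (p := C0 + g0 + w) (u := w + g + 4) (by
      push_cast; rw [pow_add, pow_add]; exact mulb (mulb hdR hj') hm') t6 (by omega)
    push_cast at this
    exact this
  have p7 : nn (((d : ℝ) * j * m ^ 2) * (t * (3 * D * A ^ 2 * q))) ≤ (1 / 2) ^ (w + g + 4) := by
    have := mono_le (k := d * j * m ^ 2) (p := C0 + g0 + 2 * w) (u := w + g + 4) (by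
      push_cast; rw [pow_add, pow_add, mul_comm 2 w, pow_mul]
      exact mulb (mulb hdR hj') (powb hm' 2)) t7 (by omega)
    push_cast at this
    exact this
  have p8 : nn (((j : ℝ) * t * s) * (2 * D * (6 * c * B ^ 2 * q))) ≤ (1 / 2) ^ (w + g + 4) := by
    have := mono_le (k := j * t * s) (p := g0 + 17 * w + (540 * w + 1)) (u := w + g + 4) (by
      push_cast; rw [pow_add, pow_add]; exact mulb (mulb hj' ht') hs') l1 (by omega)
    push_cast at this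
    exact this
  have p9 : nn (((j : ℝ) * t * s * m) * (2 * D * (12 * c * A * B * q))) ≤
      (1 / 2) ^ (w + g + 4) := by
    have := mono_le (k := j * t * s * m) (p := g0 + 17 * w + (540 * w + 1) + w) (u := w + g + 4) (by
      push_cast; rw [pow_add, pow_add, pow_add]; exact mulb (mulb (mulb hj' ht') hs') hm') l2
        (by omega)
    push_cast at this
    exact this
  have p10 : nn (((j : ℝ) * t * s * m ^ 2) * (2 * D * (6 * c * A ^ 2 * q))) ≤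
      (1 / 2) ^ (w + g + 4) := by
    have := mono_le (k := j * t * s * m ^ 2) (p := g0 + 17 * w + (540 * w + 1) + 2 * w)
      (u := w + g + 4) (by
      push_cast; rw [pow_add, pow_add, pow_add, mul_comm 2 w, pow_mul 2 w 2]
      exact mulb (mulb (mulb hj' ht') hs') (powb hm' 2)) l3 (by omega)
    push_cast at this
    exact this
  have kq : |2 * (j : ℝ) * t * x + (j : ℝ) ^ 2 * (t : ℝ) ^ 2| ≤ 2 ^ (2 * g0 + 35 * w + 3) := by
    have h1 := addb (mulb (mulb (mulb (numb (show (0 : ℝ) ≤ 2 by norm_num)) hj') ht') hx')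
      (mulb (powb hj' 2) (powb ht' 2))
    refine h1.trans ?_
    have h2 : (2 : ℝ) * 2 ^ g0 * 2 ^ (17 * w) * 2 ^ (18 * w + 1) ≤ 2 ^ (2 * g0 + 35 * w + 2) := by
      rw [show (2 : ℝ) * 2 ^ g0 * 2 ^ (17 * w) * 2 ^ (18 * w + 1) = 2 ^ (g0 + 35 * w + 2) by ring]
      exact pow_le_pow_right₀ (by norm_num) (by omega)
    have h3 : ((2 : ℝ) ^ g0) ^ 2 * (2 ^ (17 * w)) ^ 2 ≤ 2 ^ (2 * g0 + 35 * w + 2) := by
      rw [show ((2 : ℝ) ^ g0) ^ 2 * (2 ^ (17 * w)) ^ 2 = 2 ^ (2 * g0 + 34 * w) by ring]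
      exact pow_le_pow_right₀ (by norm_num) (by omega)
    calc _ ≤ (2 : ℝ) ^ (2 * g0 + 35 * w + 2) + 2 ^ (2 * g0 + 35 * w + 2) := add_le_add h2 h3
      _ = 2 ^ (2 * g0 + 35 * w + 3) := by ring
  have p11 : nn ((2 * (j : ℝ) * t * x + (j : ℝ) ^ 2 * (t : ℝ) ^ 2) *
      ((D : ℝ) ^ 2 * (6 * c * B ^ 2 * q))) ≤ (1 / 2) ^ (w + g + 4) := by
    have := mono_le (k := 2 * j * t * x + j ^ 2 * t ^ 2) (p := 2 * g0 + 35 * w + 3)
      (u := w + g + 4) (by push_cast; exact kq) q1 (by omega)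
    push_cast at this
    exact this
  have p12 : nn ((2 * (j : ℝ) * t * x * m + (j : ℝ) ^ 2 * (t : ℝ) ^ 2 * m) *
      ((D : ℝ) ^ 2 * (12 * c * A * B * q))) ≤ (1 / 2) ^ (w + g + 4) := by
    have := mono_le (k := (2 * j * t * x + j ^ 2 * t ^ 2) * m) (p := 2 * g0 + 35 * w + 3 + w)
      (u := w + g + 4) (by push_cast; rw [pow_add _ (2 * g0 + 35 * w + 3)]; exact mulb kq hm') q2
        (by omega)
    push_cast at this
    convert this using 2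
    ring
  have p13 : nn ((2 * (j : ℝ) * t * x * m ^ 2 + (j : ℝ) ^ 2 * (t : ℝ) ^ 2 * (m : ℝ) ^ 2) *
      ((D : ℝ) ^ 2 * (6 * c * A ^ 2 * q))) ≤ (1 / 2) ^ (w + g + 4) := by
    have := mono_le (k := (2 * j * t * x + j ^ 2 * t ^ 2) * m ^ 2)
      (p := 2 * g0 + 35 * w + 3 + 2 * w) (u := w + g + 4) (by
        push_cast; rw [pow_add _ (2 * g0 + 35 * w + 3), mul_comm 2 w, pow_mul 2 w 2]
        exact mulb kq (powb hm' 2)) q3 (by omega)
    push_cast at this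
    convert this using 2
    ring
  -- the real part
  set Z : ℝ := 2 ^ (E + 18 * w + g0 + 3) with hZ
  set N : ℝ := 2 ^ (a + w + 2) with hN
  have hT : |(j : ℝ) * D * t| ≤ Z := by
    have h1 := mulb (mulb hj' hD') ht'
    refine h1.trans ?_
    rw [← pow_add, ← pow_add]
    exact pow_le_pow_right₀ (by norm_num) (by omega)
  have hy : |(s : ℝ) + D * x| ≤ Z := by
    have h1 := addb hs' (mulb hD' hx')
    refine h1.trans ?_
    have h2 : (2 : ℝ) ^ (540 * w + 1) ≤ 2 ^ (E + 18 * w + 1) := pow_le_pow_right₀ (by norm_num) (by omega)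
    have h3 : (2 : ℝ) ^ (E + 18 * w + 2) ≤ Z := pow_le_pow_right₀ (by norm_num) (by omega)
    calc (2 : ℝ) ^ (540 * w + 1) + 2 ^ E * 2 ^ (18 * w + 1)
        ≤ 2 ^ (E + 18 * w + 1) + 2 ^ (E + 18 * w + 1) := by
          rw [← pow_add, ← add_assoc]
          exact add_le_add h2 le_rfl
      _ = 2 ^ (E + 18 * w + 2) := by ring
      _ ≤ Z := h3
  have hZa : Z ≤ 2 ^ a := pow_le_pow_right₀ (by norm_num) (by omega)
  have haN : (2 : ℝ) ^ a ≤ N := pow_le_pow_right₀ (by norm_num) (by omega)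
  have hZN : Z ≤ N := hZa.trans haN
  have hZ1 : 1 ≤ Z := one_le_pow₀ (by norm_num)
  have hBN : |(B : ℝ)| ≤ N := hB'.trans haN
  have hAm : |A * (m : ℝ)| ≤ 2 ^ (a + w) := by
    have h1 := mulb (numb (show (0 : ℝ) ≤ A by positivity)) hm'
    refine h1.trans ?_
    rw [hA, ← pow_add]
  have hAmN : |A * (m : ℝ)| ≤ N := hAm.trans (pow_le_pow_right₀ (by norm_num) (by omega))
  have hn : |(B : ℝ) + (s + D * x) + A * m| ≤ N := by
    have h1 := addb (addb hB' (hy.trans hZa)) hAm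
    refine h1.trans ?_
    have h2 : (2 : ℝ) ^ a ≤ 2 ^ (a + w) := pow_le_pow_right₀ (by norm_num) (by omega)
    calc (2 : ℝ) ^ a + 2 ^ a + 2 ^ (a + w) ≤ 2 ^ (a + w) + 2 ^ (a + w) + 2 ^ (a + w) := by linarith
      _ ≤ 4 * 2 ^ (a + w) := by
          have : (0 : ℝ) < 2 ^ (a + w) := by positivity
          linarith
      _ = N := by rw [hN]; ring
  have hR := real_le (M := A * (m : ℝ)) hBN hy hAmN hT hn hZN hZ1 hcR
  have hRq : (2 : ℝ) ^ C0 * (Z ^ 3 * N) * q ≤ (1 / 2) ^ (w + g + 4) := by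
    have e : (2 : ℝ) ^ C0 * (Z ^ 3 * N) * q =
        2 ^ (C0 + ((E + 18 * w + g0 + 3) * 3 + (a + w + 2))) * (1 / 2) ^ v := by
      rw [hZ, hN, hq, ← pow_mul, ← pow_add, ← pow_add, one_div_pow]
    rw [e]
    exact two_half (by omega)
  have p14 : nn ((c * (12 * ((j : ℝ) * D * t) * B * (s + D * x) ^ 2 +
      4 * ((j : ℝ) * D * t) * (s + D * x) ^ 3 + 12 * ((j : ℝ) * D * t) * (s + D * x) ^ 2 * (A * m) +
      12 * ((j : ℝ) * D * t) ^ 2 * B * (s + D * x) + 6 * ((j : ℝ) * D * t) ^ 2 * (s + D * x) ^ 2 +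
      12 * ((j : ℝ) * D * t) ^ 2 * (s + D * x) * (A * m) +
      4 * (B + (s + D * x) + A * m) * ((j : ℝ) * D * t) ^ 3 + ((j : ℝ) * D * t) ^ 4) +
      d * (6 * ((j : ℝ) * D * t) * B * (s + D * x) + 3 * ((j : ℝ) * D * t) * (s + D * x) ^ 2 +
        6 * ((j : ℝ) * D * t) * (s + D * x) * (A * m) +
        3 * (B + (s + D * x) + A * m) * ((j : ℝ) * D * t) ^ 2 + ((j : ℝ) * D * t) ^ 3) +
      e * (2 * (B + (s + D * x) + A * m) * ((j : ℝ) * D * t) + ((j : ℝ) * D * t) ^ 2) +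
      f * ((j : ℝ) * D * t)) * q) ≤ (1 / 2) ^ (w + g + 4) := by
    refine (nn_le_abs _).trans ?_
    rw [abs_mul, abs_of_nonneg (show (0 : ℝ) ≤ q by positivity)]
    exact (mul_le_mul_of_nonneg_right hR (by positivity)).trans hRq
  -- assembly
  apply small_of_nn
  have eR : (((2 : ℤ) ^ (v - w - g) : ℤ) : ℝ) / 2 ^ v = (1 / 2) ^ (w + g) := by
    push_cast
    rw [Nat.sub_sub]
    exact pow_sub_div (by omega)
  rw [eR]
  have eL : (((P (B + s + D * x + 2 ^ a * m + j * (D * t)) - P (B + s + D * x + 2 ^ a * m) : ℤ)) : ℝ) /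
      2 ^ v =
      ((j : ℝ) * (t * (4 * c * D * B ^ 3 * q)) + ((j : ℝ) * m) * (t * (12 * c * D * A * B ^ 2 * q)) +
      ((j : ℝ) * m ^ 2) * (t * (12 * c * D * A ^ 2 * B * q)) +
      ((j : ℝ) * m ^ 3) * (t * (4 * c * D * A ^ 3 * q))) +
      (((j : ℝ) * t * s) * (2 * D * (6 * c * B ^ 2 * q)) +
        ((j : ℝ) * t * s * m) * (2 * D * (12 * c * A * B * q)) +
        ((j : ℝ) * t * s * m ^ 2) * (2 * D * (6 * c * A ^ 2 * q))) +
      ((2 * (j : ℝ) * t * x + (j : ℝ) ^ 2 * (t : ℝ) ^ 2) * ((D : ℝ) ^ 2 * (6 * c * B ^ 2 * q)) +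
        (2 * (j : ℝ) * t * x * m + (j : ℝ) ^ 2 * (t : ℝ) ^ 2 * m) *
          ((D : ℝ) ^ 2 * (12 * c * A * B * q)) +
        (2 * (j : ℝ) * t * x * m ^ 2 + (j : ℝ) ^ 2 * (t : ℝ) ^ 2 * (m : ℝ) ^ 2) *
          ((D : ℝ) ^ 2 * (6 * c * A ^ 2 * q))) +
      (((d : ℝ) * j) * (t * (3 * D * B ^ 2 * q)) + ((d : ℝ) * j * m) * (t * (6 * D * A * B * q)) +
      ((d : ℝ) * j * m ^ 2) * (t * (3 * D * A ^ 2 * q))) +
      ((c * (12 * ((j : ℝ) * D * t) * B * (s + D * x) ^ 2 +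
      4 * ((j : ℝ) * D * t) * (s + D * x) ^ 3 + 12 * ((j : ℝ) * D * t) * (s + D * x) ^ 2 * (A * m) +
      12 * ((j : ℝ) * D * t) ^ 2 * B * (s + D * x) + 6 * ((j : ℝ) * D * t) ^ 2 * (s + D * x) ^ 2 +
      12 * ((j : ℝ) * D * t) ^ 2 * (s + D * x) * (A * m) +
      4 * (B + (s + D * x) + A * m) * ((j : ℝ) * D * t) ^ 3 + ((j : ℝ) * D * t) ^ 4) +
      d * (6 * ((j : ℝ) * D * t) * B * (s + D * x) + 3 * ((j : ℝ) * D * t) * (s + D * x) ^ 2 +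
        6 * ((j : ℝ) * D * t) * (s + D * x) * (A * m) +
        3 * (B + (s + D * x) + A * m) * ((j : ℝ) * D * t) ^ 2 + ((j : ℝ) * D * t) ^ 3) +
      e * (2 * (B + (s + D * x) + A * m) * ((j : ℝ) * D * t) + ((j : ℝ) * D * t) ^ 2) +
      f * ((j : ℝ) * D * t)) * q) := by
    rw [hP, hP]
    push_cast
    have i4 := gap_id4 (c : ℝ) B A D t j s x m q
    have i3 := gap_id3 (d : ℝ) B A D t j s x m q
    rw [div_eq_mul_one_div, ← hq, ← hA]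
    linear_combination i4 + i3
  rw [eL]
  have h16 : ((1 : ℝ) / 2) ^ (w + g + 4) = (1 / 2) ^ (w + g) / 16 := by
    rw [pow_add]
    norm_num
    ring
  have hU : (0 : ℝ) < (1 / 2) ^ (w + g) := by positivity
  have hA1 := nn_add2 (nn_add3 p1 p2 p3) p4
  have hA2 := nn_add3 p8 p9 p10
  have hA3 := nn_add3 p11 p12 p13
  have hA4 := nn_add3 p5 p6 p7
  have := nn_add2 (nn_add2 (nn_add3 hA1 hA2 hA3) hA4) p14
  refine this.trans ?_
  rw [h16]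
  linarith

end Pool.Agent.H48.TM4
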