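import Pool.Agent.H20.TM.Rec

set_option linter.style.longLine false

/-! TM4 (MP_b6022c_nt): Weyl sums of degree two and three, weak forms. -/

namespace Pool.Agent.H48.TM4

open Finset Pool.Agent.H9.TC Pool.Agent.H20.TM

/-- van der Corput's inequality, with a common bound `B` for the correlations -/
theorem vdc_le (f : ℕ → ℂ) (hf : ∀ n, ‖f n‖ ≤ 1) (X J : ℕ) (B : ℝ) (hB : 0 ≤ B)
    (h : ∀ j j' : ℕ, j < J → j' < J → j ≠ j' →
      ‖∑ n ∈ range X, f (n + j) * (starRingEnd ℂ) (f (n + j'))‖ ≤ B) :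
    (J : ℝ) * ‖∑ n ∈ range X, f n‖ - (J : ℝ) ^ 2 ≤
      Real.sqrt (X * ((J : ℝ) * X + (J : ℝ) ^ 2 * B)) := by
  have h1 := shift_avg f hf X J
  have e1 : ∀ n : ℕ, ((‖∑ j ∈ range J, f (n + j)‖ ^ 2 : ℝ) : ℂ) =
      ∑ j ∈ range J, ∑ j' ∈ range J, f (n + j) * (starRingEnd ℂ) (f (n + j')) := by
    intro n
    have := Complex.mul_conj (∑ j ∈ range J, f (n + j))
    rw [Complex.normSq_eq_norm_sq] at this
    rw [← this, map_sum, sum_mul_sum]
  have e2 : ((∑ n ∈ range X, ‖∑ j ∈ range J, f (n + j)‖ ^ 2 : ℝ) : ℂ) =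
      ∑ j ∈ range J, ∑ j' ∈ range J, ∑ n ∈ range X, f (n + j) * (starRingEnd ℂ) (f (n + j')) := by
    rw [Complex.ofReal_sum, sum_congr rfl fun n _ => e1 n, sum_comm]
    refine sum_congr rfl fun j _ => ?_
    rw [sum_comm]
  have e3 : ∑ n ∈ range X, ‖∑ j ∈ range J, f (n + j)‖ ^ 2 =
      ‖∑ j ∈ range J, ∑ j' ∈ range J, ∑ n ∈ range X, f (n + j) * (starRingEnd ℂ) (f (n + j'))‖ := by
    rw [← e2, Complex.norm_real, Real.norm_eq_abs, abs_of_nonneg]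
    exact sum_nonneg fun n _ => by positivity
  have h2 : ∑ n ∈ range X, ‖∑ j ∈ range J, f (n + j)‖ ^ 2 ≤ (J : ℝ) * X + (J : ℝ) ^ 2 * B := by
    rw [e3]
    have e4 : ∀ j ∈ range J, ∀ j' ∈ range J,
        ‖∑ n ∈ range X, f (n + j) * (starRingEnd ℂ) (f (n + j'))‖ ≤
          (if j = j' then (X : ℝ) else 0) + B := by
      intro j hj j' hj'
      rw [mem_range] at hj hj'
      split_ifs with hjj
      · have : ‖∑ n ∈ range X, f (n + j) * (starRingEnd ℂ) (f (n + j'))‖ ≤ X := by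
          refine (norm_sum_le _ _).trans ?_
          calc ∑ n ∈ range X, ‖f (n + j) * (starRingEnd ℂ) (f (n + j'))‖
              ≤ ∑ _n ∈ range X, (1 : ℝ) := by
                refine sum_le_sum fun n _ => ?_
                rw [norm_mul, RCLike.norm_conj]
                exact mul_le_one₀ (hf _) (norm_nonneg _) (hf _)
            _ = X := by simp
        linarith
      · rw [zero_add]
        exact h j j' hj hj' hjj
    refine (norm_sum_le _ _).trans ((sum_le_sum fun j _ => norm_sum_le _ _).trans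
      ((sum_le_sum fun j hj => sum_le_sum fun j' hj' => e4 j hj j' hj').trans ?_))
    apply le_of_eq
    simp only [sum_add_distrib, sum_ite_eq, sum_const, card_range, nsmul_eq_mul, mem_range]
    have : ∀ j ∈ range J, (if j < J then (X : ℝ) else 0) = X := by
      intro j hj
      rw [if_pos (mem_range.1 hj)]
    rw [sum_congr rfl this]
    simp
    ring
  have h3 : (∑ n ∈ range X, ‖∑ j ∈ range J, f (n + j)‖) ^ 2 ≤
      X * ∑ n ∈ range X, ‖∑ j ∈ range J, f (n + j)‖ ^ 2 := by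
    have := sq_sum_le_card_mul_sum_sq (s := range X) (f := fun n => ‖∑ j ∈ range J, f (n + j)‖)
    rwa [card_range] at this
  have h4 : ∑ n ∈ range X, ‖∑ j ∈ range J, f (n + j)‖ ≤
      Real.sqrt (X * ((J : ℝ) * X + (J : ℝ) ^ 2 * B)) := by
    apply Real.le_sqrt_of_sq_le
    exact h3.trans (mul_le_mul_of_nonneg_left h2 (Nat.cast_nonneg _))
  linarith

/-- the two signs of a difference -/
theorem nn_diff {J : ℕ} {η θ : ℝ} {j j' : ℕ} (hj : j < J) (hj' : j' < J) (hne : j ≠ j')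
    (h : ∀ i : ℕ, 1 ≤ i → i < J → η < nn (i * θ)) : η < nn (((j : ℝ) - j') * θ) := by
  rcases lt_or_gt_of_ne hne with h3 | h3
  · have := h (j' - j) (by omega) (by omega)
    rw [Nat.cast_sub h3.le] at this
    rw [← nn_neg]
    convert this using 2
    ring
  · have := h (j - j') (by omega) (by omega)
    rw [Nat.cast_sub h3.le] at this
    exact this

/-- quadratic sums with a linear term -/
theorem quad_lin_le (θ φ ζ η : ℝ) (X J : ℕ) (hη : 0 < η)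
    (h : ∀ i : ℕ, 1 ≤ i → i < J → η < nn (i * (2 * θ))) :
    (J : ℝ) * ‖∑ n ∈ range X, ee (θ * (n : ℝ) ^ 2 + φ * n + ζ)‖ - (J : ℝ) ^ 2 ≤
      Real.sqrt (X * ((J : ℝ) * X + (J : ℝ) ^ 2 * (1 / (2 * η)))) := by
  have key := vdc_le (fun n : ℕ => ee (θ * (n : ℝ) ^ 2 + φ * n + ζ)) (fun n => (f2_norm_ee _).le) X J
    (1 / (2 * η)) (by positivity) ?_
  · exact key
  intro j j' hj hj' hne
  have e : ∀ n ∈ range X, ee (θ * ((n + j : ℕ) : ℝ) ^ 2 + φ * ((n + j : ℕ) : ℝ) + ζ) *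
      (starRingEnd ℂ) (ee (θ * ((n + j' : ℕ) : ℝ) ^ 2 + φ * ((n + j' : ℕ) : ℝ) + ζ)) =
      ee (((j : ℝ) - j') * (2 * θ) * n + (θ * ((j : ℝ) ^ 2 - (j' : ℝ) ^ 2) + φ * ((j : ℝ) - j'))) := by
    intro n _
    rw [← f2_ee_neg, ← f2_ee_add]
    congr 1
    push_cast
    ring
  rw [sum_congr rfl e]
  have h1 := lin_sum_le X (((j : ℝ) - j') * (2 * θ)) (θ * ((j : ℝ) ^ 2 - (j' : ℝ) ^ 2) + φ * ((j : ℝ) - j'))
  have h2 := nn_diff hj hj' hne h
  rw [le_div_iff₀ (by positivity)]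
  have h4 := norm_nonneg (∑ n ∈ range X, ee (((j : ℝ) - j') * (2 * θ) * n +
    (θ * ((j : ℝ) ^ 2 - (j' : ℝ) ^ 2) + φ * ((j : ℝ) - j'))))
  nlinarith

/-- numerical end of the quadratic sums: `J` with `J ^ 3 ≤ X ^ 2`, threshold `J / X` -/
theorem quad_end {S X J : ℝ} (hX : 0 < X) (hJ : 0 < J)
    (h : J * S - J ^ 2 ≤ Real.sqrt (X * (J * X + J ^ 2 * (1 / (2 * (J / X)))))) :
    S ≤ J + 1.23 * X / Real.sqrt J := by
  have e : X * (J * X + J ^ 2 * (1 / (2 * (J / X)))) = 1.5 * (J * X ^ 2) := by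
    field_simp
    ring
  rw [e] at h
  have hs : 0 < Real.sqrt J := Real.sqrt_pos.2 hJ
  have hs2 : Real.sqrt J * Real.sqrt J = J := Real.mul_self_sqrt hJ.le
  have h2 : Real.sqrt (1.5 * (J * X ^ 2)) ≤ 1.23 * (Real.sqrt J * X) := by
    rw [Real.sqrt_le_left (by positivity), mul_pow, mul_pow, Real.sq_sqrt hJ.le]
    nlinarith [mul_pos hJ (pow_pos hX 2)]
  have h3 : J * S ≤ J * (J + 1.23 * X / Real.sqrt J) := by
    have : J * (1.23 * X / Real.sqrt J) = 1.23 * (Real.sqrt J * X) := by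
      field_simp
      nlinarith
    rw [mul_add, this]
    nlinarith
  exact le_of_mul_le_mul_left h3 hJ

/-- Weyl sums of degree two -/
theorem w2 (c X : ℕ) (θ φ ζ : ℝ) (hX : 8 ^ c ≤ X)
    (h : ∀ i : ℕ, 1 ≤ i → i < 4 ^ c → (4 ^ c : ℝ) / X < nn (2 * i * θ)) :
    ‖∑ n ∈ range X, ee (θ * (n : ℝ) ^ 2 + φ * n + ζ)‖ ≤ 3 * X / 2 ^ c := by
  have hX0 : (0 : ℝ) < X := by
    have : 0 < X := lt_of_lt_of_le (by positivity) hX
    exact_mod_cast this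
  have hX' : (8 : ℝ) ^ c ≤ X := by exact_mod_cast hX
  have h1 := quad_lin_le θ φ ζ ((4 ^ c : ℝ) / X) X (4 ^ c) (by positivity) (fun i h1 h2 => by
    have := h i h1 h2
    rwa [show (i : ℝ) * (2 * θ) = 2 * i * θ by ring])
  push_cast at h1
  have h2 := quad_end hX0 (show (0 : ℝ) < 4 ^ c by positivity) h1
  have hs : Real.sqrt ((4 : ℝ) ^ c) = 2 ^ c := by
    rw [show (4 : ℝ) ^ c = (2 ^ c) ^ 2 by rw [← pow_mul, mul_comm, pow_mul]; norm_num]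
    exact Real.sqrt_sq (by positivity)
  rw [hs] at h2
  have h3 : (4 : ℝ) ^ c ≤ X / 2 ^ c := by
    rw [le_div_iff₀ (by positivity), ← mul_pow]
    norm_num
    exact hX'
  have h4 : 0 < (X : ℝ) / 2 ^ c := by positivity
  calc _ ≤ (4 : ℝ) ^ c + 1.23 * X / 2 ^ c := h2
    _ ≤ X / 2 ^ c + 1.23 * (X / 2 ^ c) := by rw [mul_div_assoc]; linarith
    _ ≤ 3 * (X / 2 ^ c) := by linarith
    _ = 3 * X / 2 ^ c := by ring

/-- Weyl sums of degree three -/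
theorem w3 (c X : ℕ) (θ φ ψ ζ : ℝ) (hX : 64 ^ c ≤ X)
    (h : ∀ i h' : ℕ, 1 ≤ i → i < 16 ^ c → 1 ≤ h' → h' < 16 ^ c →
      (16 ^ c : ℝ) / X < nn (6 * i * h' * θ)) :
    ‖∑ n ∈ range X, ee (θ * (n : ℝ) ^ 3 + φ * (n : ℝ) ^ 2 + ψ * n + ζ)‖ ≤ 3 * X / 2 ^ c := by
  have hX0 : (0 : ℝ) < X := by
    have : 0 < X := lt_of_lt_of_le (by positivity) hX
    exact_mod_cast this
  have hX' : (64 : ℝ) ^ c ≤ X := by exact_mod_cast hX
  have hs : Real.sqrt ((16 : ℝ) ^ c) = 4 ^ c := by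
    rw [show (16 : ℝ) ^ c = (4 ^ c) ^ 2 by rw [← pow_mul, mul_comm, pow_mul]; norm_num]
    exact Real.sqrt_sq (by positivity)
  have key := vdc_le (fun n : ℕ => ee (θ * (n : ℝ) ^ 3 + φ * (n : ℝ) ^ 2 + ψ * n + ζ))
    (fun n => (f2_norm_ee _).le) X (16 ^ c) (3 * X / 4 ^ c) (by positivity) ?_
  · push_cast at key
    have h5 : Real.sqrt ((X : ℝ) * (16 ^ c * X + (16 ^ c) ^ 2 * (3 * X / 4 ^ c))) ≤
        2 * 16 ^ c * X / 2 ^ c := by
      rw [Real.sqrt_le_left (by positivity)]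
      have e1 : (16 : ℝ) ^ c = (2 ^ c) ^ 4 := by rw [← pow_mul, mul_comm, pow_mul]; norm_num
      have e2 : (4 : ℝ) ^ c = (2 ^ c) ^ 2 := by rw [← pow_mul, mul_comm, pow_mul]; norm_num
      rw [e1, e2]
      have hp : (1 : ℝ) ≤ 2 ^ c := one_le_pow₀ (by norm_num)
      generalize (2 : ℝ) ^ c = u at hp
      have hu : 0 < u := by linarith
      have e3 : (2 * u ^ 4 * (X : ℝ) / u) ^ 2 = 4 * u ^ 6 * (X : ℝ) ^ 2 := by
        field_simp
        ring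
      have e4 : (X : ℝ) * (u ^ 4 * X + (u ^ 4) ^ 2 * (3 * X / u ^ 2)) =
          (u ^ 4 + 3 * u ^ 6) * (X : ℝ) ^ 2 := by
        field_simp
      rw [e3, e4]
      have h6 : u ^ 4 ≤ u ^ 6 := pow_le_pow_right₀ hp (by norm_num)
      have h7 : 0 ≤ (X : ℝ) ^ 2 := by positivity
      nlinarith
    have h8 : (16 : ℝ) ^ c * ‖∑ n ∈ range X, ee (θ * (n : ℝ) ^ 3 + φ * (n : ℝ) ^ 2 + ψ * n + ζ)‖ ≤
        16 ^ c * (16 ^ c + 2 * X / 2 ^ c) := by
      have : (16 : ℝ) ^ c * (2 * X / 2 ^ c) = 2 * 16 ^ c * X / 2 ^ c := by ring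
      rw [mul_add, this]
      nlinarith [key, h5]
    have h9 := le_of_mul_le_mul_left h8 (by positivity)
    have h10 : (16 : ℝ) ^ c ≤ X / 2 ^ c := by
      rw [le_div_iff₀ (by positivity), ← mul_pow]
      refine le_trans (pow_le_pow_left₀ (by norm_num) (by norm_num) c) hX'
    calc _ ≤ (16 : ℝ) ^ c + 2 * X / 2 ^ c := h9
      _ ≤ X / 2 ^ c + 2 * X / 2 ^ c := by linarith
      _ = 3 * X / 2 ^ c := by ring
  intro j j' hj hj' hne
  have e : ∀ n ∈ range X, ee (θ * ((n + j : ℕ) : ℝ) ^ 3 + φ * ((n + j : ℕ) : ℝ) ^ 2 +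
      ψ * ((n + j : ℕ) : ℝ) + ζ) * (starRingEnd ℂ) (ee (θ * ((n + j' : ℕ) : ℝ) ^ 3 +
        φ * ((n + j' : ℕ) : ℝ) ^ 2 + ψ * ((n + j' : ℕ) : ℝ) + ζ)) =
      ee ((((j : ℝ) - j') * (3 * θ)) * (n : ℝ) ^ 2 +
        (3 * θ * ((j : ℝ) ^ 2 - (j' : ℝ) ^ 2) + 2 * φ * ((j : ℝ) - j')) * n +
        (θ * ((j : ℝ) ^ 3 - (j' : ℝ) ^ 3) + φ * ((j : ℝ) ^ 2 - (j' : ℝ) ^ 2) + ψ * ((j : ℝ) - j'))) := by
    intro n _
    rw [← f2_ee_neg, ← f2_ee_add]
    congr 1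
    push_cast
    ring
  rw [sum_congr rfl e]
  have h1 := quad_lin_le (((j : ℝ) - j') * (3 * θ))
    (3 * θ * ((j : ℝ) ^ 2 - (j' : ℝ) ^ 2) + 2 * φ * ((j : ℝ) - j'))
    (θ * ((j : ℝ) ^ 3 - (j' : ℝ) ^ 3) + φ * ((j : ℝ) ^ 2 - (j' : ℝ) ^ 2) + ψ * ((j : ℝ) - j'))
    ((16 ^ c : ℝ) / X) X (16 ^ c) (by positivity) (fun i h1 h2 => by
      have := nn_diff (θ := 6 * i * θ) (η := (16 ^ c : ℝ) / X) hj hj' hne (fun i' h3 h4 => by
        have := h i i' h1 h2 h3 h4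
        rwa [show (i' : ℝ) * (6 * i * θ) = 6 * i * i' * θ by ring])
      rwa [show (i : ℝ) * (2 * (((j : ℝ) - j') * (3 * θ))) = ((j : ℝ) - j') * (6 * i * θ) by ring])
  push_cast at h1
  have h2 := quad_end hX0 (show (0 : ℝ) < 16 ^ c by positivity) h1
  rw [hs] at h2
  have h3 : (16 : ℝ) ^ c ≤ X / 4 ^ c := by
    rw [le_div_iff₀ (by positivity), ← mul_pow]
    norm_num
    exact hX'
  have h4 : 0 < (X : ℝ) / 4 ^ c := by positivity
  calc _ ≤ (16 : ℝ) ^ c + 1.23 * X / 4 ^ c := h2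
    _ ≤ X / 4 ^ c + 1.23 * (X / 4 ^ c) := by rw [mul_div_assoc]; linarith
    _ ≤ 3 * (X / 4 ^ c) := by linarith
    _ = 3 * X / 4 ^ c := by ring

end Pool.Agent.H48.TM4
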